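import Pool.Agent.Helper41.LD.Ev

/-!
# Project LD: the discrepancy at all times
-/

set_option autoImplicit false

namespace Pool.Agent.Helper41.LD

open Set Filter Topology

theorem DiscLe.mono {t : ℕ → ℝ} {N : ℕ} {E E' : ℝ} (h : DiscLe t N E) (hE : E ≤ E') : DiscLe t N E' :=
  fun α β h0 h1 h2 => (h α β h0 h1 h2).trans hE

theorem DiscLe.add {t : ℕ → ℝ} {n : ℕ} {E : ℝ} (h : DiscLe t n E) (m : ℕ) : DiscLe t (n + m) (E + m) := by
  classical
  intro α β h0 h1 h2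
  have h3 := h α β h0 h1 h2
  set P : ℕ → Prop := fun j => α ≤ Int.fract (t j) ∧ Int.fract (t j) < β with hP
  have h4 : ((Finset.range (n + m)).filter P).card ≤ ((Finset.range n).filter P).card + m := by
    rw [Finset.range_eq_Ico, ← Finset.Ico_union_Ico_eq_Ico (Nat.zero_le n) (Nat.le_add_right n m), Finset.filter_union]
    refine (Finset.card_union_le _ _).trans ?_
    refine Nat.add_le_add (by rw [Finset.range_eq_Ico]) ((Finset.card_filter_le _ _).trans ?_)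
    rw [Nat.card_Ico]
    omega
  have h5 : ((Finset.range n).filter P).card ≤ ((Finset.range (n + m)).filter P).card :=
    Finset.card_le_card (Finset.filter_subset_filter _ (Finset.range_subset_range.2 (Nat.le_add_right n m)))
  have h4' : (((Finset.range (n + m)).filter P).card : ℝ) ≤ ((Finset.range n).filter P).card + m := by exact_mod_cast h4
  have h5' : (((Finset.range n).filter P).card : ℝ) ≤ ((Finset.range (n + m)).filter P).card := by exact_mod_cast h5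
  have hm : (0 : ℝ) ≤ m := Nat.cast_nonneg m
  have h6 : 0 ≤ m * (β - α) := mul_nonneg hm (by linarith)
  have h7 : m * (β - α) ≤ m := mul_le_of_le_one_right hm (by linarith)
  have h3' := abs_le.1 h3
  push_cast
  rw [abs_le]
  constructor <;> nlinarith [h3'.1, h3'.2]

theorem log_le (N : ℕ) : (Nat.log 2 (N + 1) : ℝ) ≤ 2 * Real.log (N + 1) := by
  have h1 : ((2 : ℕ) ^ Nat.log 2 (N + 1) : ℕ) ≤ N + 1 := Nat.pow_log_le_self 2 (by omega)
  have h2 : ((2 : ℝ) ^ Nat.log 2 (N + 1)) ≤ N + 1 := by exact_mod_cast h1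
  have h3 := Real.log_le_log (by positivity) h2
  rw [Real.log_pow] at h3
  have h4 := Real.log_two_gt_d9
  have h5 : (0 : ℝ) ≤ Nat.log 2 (N + 1) := Nat.cast_nonneg _
  nlinarith

theorem exists_block {n : ℕ → ℕ} (hn : Monotone n) (hnt : Tendsto n atTop atTop) {N : ℕ} (h0 : n 0 ≤ N) :
    ∃ k, n k ≤ N ∧ N < n (k + 1) := by
  classical
  obtain ⟨m, hm⟩ := (hnt.eventually (eventually_gt_atTop N)).exists
  have hex : ∃ m, N < n m := ⟨m, hm⟩
  have h1 := Nat.find_spec hex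
  have h2 : Nat.find hex ≠ 0 := by
    intro h
    rw [h] at h1
    omega
  obtain ⟨k, hk⟩ := Nat.exists_eq_succ_of_ne_zero h2
  refine ⟨k, ?_, ?_⟩
  · by_contra hcon
    have := Nat.find_min hex (m := k) (by omega)
    omega
  · rw [hk] at h1
    exact h1

theorem final_disc {t : ℕ → ℝ} {κ n₀ K₀ : ℕ} (hK₀ : 1 ≤ K₀) {D₀ : ℝ} (hD : 0 ≤ D₀)
    (h : ∀ k, DiscLe t (nk κ n₀ K₀ k) (D₀ * (Kk K₀ k : ℝ) ^ (2 * κ + 5))) :
    ∃ N₀ : ℕ, ∀ N ≥ N₀, DiscLe t N (Real.log N ^ (2 * κ + 6)) := by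
  have hlim : Tendsto (fun N : ℕ => Real.log N) atTop atTop := Real.tendsto_log_atTop.comp tendsto_natCast_atTop_atTop
  have hev : ∀ᶠ N : ℕ in atTop, (D₀ + 1) * 5 ^ (2 * κ + 5) ≤ Real.log N ∧ (K₀ : ℝ) ≤ Real.log N ∧ 1 ≤ N ∧ n₀ ≤ N :=
    (hlim.eventually_ge_atTop _).and ((hlim.eventually_ge_atTop _).and ((eventually_ge_atTop 1).and (eventually_ge_atTop n₀)))
  obtain ⟨N₀, hN₀⟩ := eventually_atTop.1 hev
  refine ⟨N₀, fun N hN => ?_⟩
  obtain ⟨g1, g2, g3, g4⟩ := hN₀ N hN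
  have hmono := nk_mono κ n₀ K₀
  have ht : Tendsto (nk κ n₀ K₀) atTop atTop := tendsto_atTop_mono (nk_ge κ n₀ hK₀) tendsto_id
  have h00 : nk κ n₀ K₀ 0 ≤ N := by unfold nk; simpa using g4
  obtain ⟨k, hk1, hk2⟩ := exists_block hmono ht h00
  obtain ⟨m, rfl⟩ := Nat.exists_eq_add_of_le hk1
  refine ((h k).add m).mono ?_
  set N := nk κ n₀ K₀ k + m with hNdef
  set K := Kk K₀ k with hK
  have hK1 : 1 ≤ K := hK₀.trans (Kk_ge K₀ k)
  have hKr : (1 : ℝ) ≤ K := by exact_mod_cast hK1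
  have hm : m ≤ K ^ (κ + 1) := by
    rw [nk_succ, ← hK] at hk2
    omega
  have hm' : (m : ℝ) ≤ (K : ℝ) ^ (2 * κ + 5) := by
    have h1 : (m : ℝ) ≤ (K : ℝ) ^ (κ + 1) := by exact_mod_cast hm
    exact h1.trans (pow_le_pow_right₀ hKr (by omega))
  have hNr : (1 : ℝ) ≤ N := by exact_mod_cast g3
  have hlog0 : 0 ≤ Real.log N := Real.log_nonneg hNr
  have hKN : (K : ℝ) ≤ 5 * Real.log N := by
    have h1 : k ≤ N := (nk_ge κ n₀ hK₀ k).trans (Nat.le_add_right _ _)
    have h2 : Nat.log 2 (k + 1) ≤ Nat.log 2 (N + 1) := Nat.log_mono_right (by omega)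
    have h3 : (K : ℝ) = K₀ + (Nat.log 2 (k + 1) : ℝ) := by
      rw [hK]; unfold Kk; push_cast; ring
    have h4 : (Nat.log 2 (k + 1) : ℝ) ≤ (Nat.log 2 (N + 1) : ℝ) := by exact_mod_cast h2
    have h5 := log_le N
    have h6 : Real.log (N + 1) ≤ 2 * Real.log N := by
      have h7 : (N : ℝ) + 1 ≤ (N : ℝ) ^ 2 := by
        have h8 : (2 : ℝ) ≤ N := by
          have : (1 : ℝ) ≤ Real.log N := by
            have h9 : (1 : ℝ) ≤ (K₀ : ℝ) := by exact_mod_cast hK₀
            linarith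
          have h10 : Real.exp 1 ≤ N := by
            rw [← Real.exp_log (show (0 : ℝ) < N by linarith)]
            exact Real.exp_le_exp.2 this
          have := Real.add_one_le_exp (1 : ℝ)
          linarith
        nlinarith
      calc Real.log (N + 1) ≤ Real.log ((N : ℝ) ^ 2) := Real.log_le_log (by positivity) h7
        _ = 2 * Real.log N := by rw [Real.log_pow]; norm_num
    linarith
  calc D₀ * (K : ℝ) ^ (2 * κ + 5) + m ≤ D₀ * (K : ℝ) ^ (2 * κ + 5) + (K : ℝ) ^ (2 * κ + 5) := by linarith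
    _ = (D₀ + 1) * (K : ℝ) ^ (2 * κ + 5) := by ring
    _ ≤ (D₀ + 1) * (5 * Real.log N) ^ (2 * κ + 5) := by gcongr
    _ = ((D₀ + 1) * 5 ^ (2 * κ + 5)) * Real.log N ^ (2 * κ + 5) := by rw [mul_pow]; ring
    _ ≤ Real.log N * Real.log N ^ (2 * κ + 5) := by gcongr
    _ = Real.log N ^ (2 * κ + 6) := by ring

end Pool.Agent.Helper41.LD
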