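import Mathlib

/-!
# Project LD: nearly optimal discrepancy of exponential sequences, definitions
-/

set_option autoImplicit false

namespace Pool.Agent.Helper41.LD

open Set MeasureTheory

/-- the sequence -/
noncomputable def u (θ : ℝ) (c : ℕ → ℝ) (j : ℕ) (x : ℝ) : ℝ := x * θ ^ j + c j

/-- average over the window `[a, a + ℓ]` -/
noncomputable def av (ψ : ℝ → ℝ) (a ℓ : ℝ) : ℝ := (∫ x in a..(a + ℓ), ψ x) / ℓ

/-- variance over the window -/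
noncomputable def var (ψ : ℝ → ℝ) (a ℓ : ℝ) : ℝ := av (fun x => (ψ x - av ψ a ℓ) ^ 2) a ℓ

/-- the indicator of the dyadic interval `[i 2^-k, (i+1) 2^-k)` mod 1 -/
noncomputable def ind (k i : ℕ) (t : ℝ) : ℝ := if ⌊(2 : ℝ) ^ k * Int.fract t⌋ = (i : ℤ) then 1 else 0

/-- the Haar function of this interval -/
noncomputable def haar (k i : ℕ) (t : ℝ) : ℝ := ind (k + 1) (2 * i) t - ind (k + 1) (2 * i + 1) t

/-- average of `haar k i (u j)` -/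
noncomputable def A (θ : ℝ) (c : ℕ → ℝ) (k i j : ℕ) (a ℓ : ℝ) : ℝ := av (fun x => haar k i (u θ c j x)) a ℓ

/-- the martingale -/
noncomputable def M (θ : ℝ) (c : ℕ → ℝ) (k i : ℕ) (a ℓ : ℝ) : ℝ := ∑' j, A θ c k i j a ℓ

/-- the pending variance -/
noncomputable def W (θ : ℝ) (c : ℕ → ℝ) (n r k i : ℕ) (a ℓ : ℝ) : ℝ :=
  r * ∑ j ∈ Finset.Ico (n - r) n, var (fun x => haar k i (u θ c j x)) a ℓ

/-- all dyadic intervals of level less than `K` -/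
def idx (K : ℕ) : Finset (Σ _ : ℕ, ℕ) := (Finset.range K).sigma fun k => Finset.range (2 ^ k)

/-- the potential -/
noncomputable def Pot (θ : ℝ) (c : ℕ → ℝ) (n r K : ℕ) (lam a ℓ : ℝ) : ℝ :=
  ∑ p ∈ idx K, Real.cosh (lam * M θ c p.1 p.2 a ℓ) * (1 + 4 * lam ^ 2 * W θ c n r p.1 p.2 a ℓ)

/-- no cell boundary in the images of the window at the times before `n - r` -/
def NB (θ : ℝ) (c : ℕ → ℝ) (n r K : ℕ) (a ℓ : ℝ) : Prop :=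
  ∀ j : ℕ, j + r < n → ∀ x ∈ Icc a (a + ℓ), ⌊(2 : ℝ) ^ K * u θ c j x⌋ = ⌊(2 : ℝ) ^ K * u θ c j a⌋

/-- the window `[a, a + ℓ]` is a window of time `n` -/
def Win (θ : ℝ) (n : ℕ) (ℓ : ℝ) : Prop := 1 ≤ θ ^ n * ℓ ∧ θ ^ n * ℓ ≤ 2

/-- equidistribution of the multiples of the powers of `θ` on all blocks of at least `Q₀` integers -/
def Equi (θ : ℝ) (r Q₀ : ℕ) (ε : ℝ) : Prop :=
  ∀ d : ℕ, 1 ≤ d → d ≤ r → ∀ Q : ℕ, Q₀ ≤ Q → ∀ x α β : ℝ, 0 ≤ α → α ≤ β → β ≤ 1 →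
    |(((Finset.range Q).filter fun k : ℕ => α ≤ Int.fract (k * θ ^ d + x) ∧ Int.fract (k * θ ^ d + x) < β).card : ℝ) -
      Q * (β - α)| ≤ ε * Q

/-- the arithmetic condition -/
def Dioph (θ : ℝ) (κ : ℕ) : Prop :=
  ∃ C : ℝ, 0 < C ∧ ∀ d q : ℕ, 1 ≤ d → 1 ≤ q → ∀ p : ℤ, Real.exp (-(C * ((d : ℝ) + Real.log q) ^ κ)) ≤ |q * θ ^ d - p|

/-- the discrepancy of the first `N` terms is at most `E` (not divided by `N`) -/
def DiscLe (t : ℕ → ℝ) (N : ℕ) (E : ℝ) : Prop :=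
  ∀ α β : ℝ, 0 ≤ α → α ≤ β → β ≤ 1 →
    |(((Finset.range N).filter fun j : ℕ => α ≤ Int.fract (t j) ∧ Int.fract (t j) < β).card : ℝ) - N * (β - α)| ≤ E

/-- the parameters of one block -/
structure Par (θ : ℝ) (K n L r Q₀ : ℕ) (ε : ℝ) : Prop where
  hθ : 1 < θ
  hK : 1 ≤ K
  hC : θ / (θ - 1) ≤ K
  hr : (2 : ℝ) ^ (12 * K) ≤ θ ^ r
  hr1 : 1 ≤ r
  hL : 3 * r ≤ L
  hn : n + L + r ≤ 2 ^ (2 * K)
  hQ : (Q₀ : ℝ) + 1 ≤ θ ^ (L - 2 * r)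
  hε0 : 0 ≤ ε
  hε : ε ≤ (1 / 2) ^ (12 * K)
  equi : Equi θ r Q₀ ε

end Pool.Agent.Helper41.LD
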