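import Pool.Agent.Helper41.LD.Fin
import Pool.Agent.Helper33.LD.WA
import Pool.Agent.Helper88.LD.WB2
import Pool.Agent.Helper80.LD.T
import Pool.Agent.Helper65.LD.F
import Pool.Agent.Helper89.LD.Dim
import Pool.Agent.Helper23.LD.KR
import Pool.Agent.Helper9.LD.S

/-!
# Project LD: the main theorem
-/

set_option autoImplicit false

namespace Pool.Agent.Helper41.LD

open Set Filter Topology MeasureTheory
open Pool.Agent.Helper33.LD (M_le sum_sub_M)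
open Pool.Agent.Helper88.LD (W_nonneg W_le)
open Pool.Agent.Helper80.LD.T (trans)
open Pool.Agent.Helper65.LD.F (disc_of_haar)
open Pool.Agent.Helper89.LD (dim_homog)
open Pool.Agent.Helper23.LD (equi_of_dioph)
open Pool.Agent.Helper9.LD (step)

/-- the parameter `λ` -/
noncomputable def lamK (κ K : ℕ) : ℝ := 1 / (4096 * K * ((K ^ (κ + 1) : ℕ) : ℝ) ^ 2)

theorem lamK_pos (κ : ℕ) {K : ℕ} (hK : 1 ≤ K) : 0 < lamK κ K := by
  unfold lamK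
  have : (0 : ℝ) < K := by exact_mod_cast hK
  have : (0 : ℝ) < ((K ^ (κ + 1) : ℕ) : ℝ) := by exact_mod_cast Nat.pow_pos hK
  positivity

theorem lamK_anti (κ : ℕ) {K K' : ℕ} (hK : 1 ≤ K) (h : K ≤ K') : lamK κ K' ≤ lamK κ K := by
  unfold lamK
  have h0 : (0 : ℝ) < K := by exact_mod_cast hK
  have h1 : (0 : ℝ) < ((K ^ (κ + 1) : ℕ) : ℝ) := by exact_mod_cast Nat.pow_pos hK
  have h2 : (K : ℝ) ≤ K' := by exact_mod_cast h
  have h3 : ((K ^ (κ + 1) : ℕ) : ℝ) ≤ ((K' ^ (κ + 1) : ℕ) : ℝ) := by exact_mod_cast Nat.pow_le_pow_left h _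
  refine one_div_le_one_div_of_le (by positivity) ?_
  gcongr

/-- a good window -/
def Good (θ : ℝ) (c : ℕ → ℝ) (κ R n₀ K₀ : ℕ) (ℓ : ℕ → ℝ) (k : ℕ) (a : ℝ) : Prop :=
  NB θ c (nk κ n₀ K₀ k) (R * Kk K₀ k) (Kk K₀ k) a (ℓ k) ∧
  Pot θ c (nk κ n₀ K₀ k) (R * Kk K₀ k) (Kk K₀ k) (lamK κ (Kk K₀ k)) a (ℓ k) ≤ 16 ^ Kk K₀ k

theorem sum_cosh_le_Pot {θ : ℝ} {c : ℕ → ℝ} (n r K : ℕ) (lam a : ℝ) {ℓ : ℝ} (hℓ : 0 < ℓ) :
    ∑ p ∈ idx K, Real.cosh (lam * M θ c p.1 p.2 a ℓ) ≤ Pot θ c n r K lam a ℓ := by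
  unfold Pot
  refine Finset.sum_le_sum fun p _ => ?_
  have h1 := Real.one_le_cosh (lam * M θ c p.1 p.2 a ℓ)
  have h2 : 0 ≤ 4 * lam ^ 2 * W θ c n r p.1 p.2 a ℓ := by
    have := W_nonneg (θ := θ) (c := c) n r p.1 p.2 (a := a) hℓ
    positivity
  nlinarith

theorem mem_idx {K k i : ℕ} (hk : k < K) (hi : i < 2 ^ k) : (⟨k, i⟩ : Σ _ : ℕ, ℕ) ∈ idx K := by
  unfold idx
  rw [Finset.mem_sigma]
  exact ⟨Finset.mem_range.2 hk, Finset.mem_range.2 hi⟩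

/-- bound for the martingale on a good window -/
theorem M_of_Pot {θ : ℝ} {c : ℕ → ℝ} {n r K : ℕ} {lam a ℓ : ℝ} (hℓ : 0 < ℓ) (hlam : 0 < lam)
    (h : Pot θ c n r K lam a ℓ ≤ 16 ^ K) {k i : ℕ} (hk : k < K) (hi : i < 2 ^ k) :
    |M θ c k i a ℓ| ≤ (3 * K + 1) / lam := by
  have h1 : Real.cosh (lam * M θ c k i a ℓ) ≤ 16 ^ K :=
    (Finset.single_le_sum (f := fun p : (Σ _ : ℕ, ℕ) => Real.cosh (lam * M θ c p.1 p.2 a ℓ))
      (fun p _ => (Real.cosh_pos _).le) (mem_idx hk hi)).trans ((sum_cosh_le_Pot n r K lam a hℓ).trans h)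
  have h2 : Real.exp |lam * M θ c k i a ℓ| ≤ 2 * 16 ^ K := by
    rw [← Real.cosh_abs, Real.cosh_eq] at h1
    have := Real.exp_pos (-|lam * M θ c k i a ℓ|)
    linarith
  have h3 : |lam * M θ c k i a ℓ| ≤ Real.log (2 * 16 ^ K) := by
    rw [Real.le_log_iff_exp_le (by positivity)]
    exact h2
  have h4 : Real.log (2 * 16 ^ K) ≤ 3 * K + 1 := by
    have e : (2 : ℝ) * 16 ^ K = 2 ^ (4 * K + 1) := by
      rw [pow_succ, pow_mul]; norm_num; ring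
    rw [e, Real.log_pow]
    have h5 := Real.log_two_lt_d9
    have h6 : (0 : ℝ) ≤ K := Nat.cast_nonneg K
    push_cast
    nlinarith
  rw [abs_mul, abs_of_pos hlam] at h3
  rw [le_div_iff₀ hlam, mul_comm]
  linarith

/-- the discrepancy on a good window -/
theorem good_disc {θ : ℝ} (hθ : 1 < θ) {c : ℕ → ℝ} {κ n r K : ℕ} {a ℓ : ℝ} (hw : Win θ n ℓ) (hℓ : 0 < ℓ) (hK : 1 ≤ K)
    (hC : θ / (θ - 1) ≤ K) (hr : r ≤ K ^ (κ + 1)) (hn : n ≤ 2 ^ (K + 1) * K ^ (κ + 1))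
    (hNB : NB θ c n r K a ℓ) (hPot : Pot θ c n r K (lamK κ K) a ℓ ≤ 16 ^ K) {x : ℝ} (hx : x ∈ Icc a (a + ℓ)) :
    DiscLe (fun j => x * θ ^ j + c j) n (70000 * (K : ℝ) ^ (2 * κ + 5)) := by
  have hKr : (1 : ℝ) ≤ K := by exact_mod_cast hK
  have hlam := lamK_pos κ hK
  set E : ℝ := (3 * K + 1) / lamK κ K + 2 * r + θ / (θ - 1) with hE
  have hθ1 : 0 ≤ θ / (θ - 1) := div_nonneg (by linarith) (by linarith)
  have hE0 : 0 ≤ E := by positivity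
  have h1 : ∀ k < K, ∀ i < 2 ^ k, |∑ j ∈ Finset.range n, haar k i (x * θ ^ j + c j)| ≤ E := by
    intro k hk i hi
    have h2 := sum_sub_M hθ hw.1 hℓ hNB hk i hx
    have h3 := M_of_Pot hℓ hlam hPot hk hi
    have h4 : |∑ j ∈ Finset.range n, haar k i (u θ c j x)| ≤ |∑ j ∈ Finset.range n, haar k i (u θ c j x) - M θ c k i a ℓ| + |M θ c k i a ℓ| := by
      have := abs_add_le (∑ j ∈ Finset.range n, haar k i (u θ c j x) - M θ c k i a ℓ) (M θ c k i a ℓ)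
      rwa [sub_add_cancel] at this
    show |∑ j ∈ Finset.range n, haar k i (u θ c j x)| ≤ E
    rw [hE]
    linarith
  refine (disc_of_haar (fun j => x * θ ^ j + c j) n K hE0 h1).mono ?_
  -- the size of the bound
  have hp : ∀ {e e' : ℕ}, e ≤ e' → (K : ℝ) ^ e ≤ (K : ℝ) ^ e' := fun h => pow_le_pow_right₀ hKr h
  have i1 : 1 / lamK κ K = 4096 * (K : ℝ) ^ (2 * κ + 3) := by
    unfold lamK
    rw [one_div_one_div]
    push_cast
    ring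
  have i2 : (3 * (K : ℝ) + 1) / lamK κ K ≤ 16384 * (K : ℝ) ^ (2 * κ + 4) := by
    rw [div_eq_mul_one_div, i1]
    calc (3 * (K : ℝ) + 1) * (4096 * (K : ℝ) ^ (2 * κ + 3)) ≤ (4 * K) * (4096 * (K : ℝ) ^ (2 * κ + 3)) := by gcongr; linarith
      _ = 16384 * (K : ℝ) ^ (2 * κ + 4) := by ring
  have i3 : (2 : ℝ) * r ≤ 2 * (K : ℝ) ^ (2 * κ + 4) := by
    have : (r : ℝ) ≤ (K : ℝ) ^ (κ + 1) := by exact_mod_cast hr
    have := hp (show κ + 1 ≤ 2 * κ + 4 by omega)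
    linarith
  have i4 : θ / (θ - 1) ≤ (K : ℝ) ^ (2 * κ + 4) := by
    have := hp (show 1 ≤ 2 * κ + 4 by omega)
    rw [pow_one] at this
    linarith
  have i5 : E ≤ 16387 * (K : ℝ) ^ (2 * κ + 4) := by rw [hE]; linarith
  have i6 : 2 * ((K : ℝ) + 1) * E ≤ 65548 * (K : ℝ) ^ (2 * κ + 5) := by
    calc 2 * ((K : ℝ) + 1) * E ≤ 4 * K * (16387 * (K : ℝ) ^ (2 * κ + 4)) := by
          refine mul_le_mul (by linarith) i5 hE0 (by positivity)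
      _ = 65548 * (K : ℝ) ^ (2 * κ + 5) := by ring
  have i7 : 2 * ((n : ℝ) * (1 / 2) ^ K) ≤ 4 * (K : ℝ) ^ (2 * κ + 5) := by
    have h5 : (n : ℝ) ≤ 2 ^ (K + 1) * (K : ℝ) ^ (κ + 1) := by exact_mod_cast hn
    calc 2 * ((n : ℝ) * (1 / 2) ^ K) ≤ 2 * ((2 ^ (K + 1) * (K : ℝ) ^ (κ + 1)) * (1 / 2) ^ K) := by gcongr
      _ = 4 * (K : ℝ) ^ (κ + 1) * (2 ^ K * (1 / 2) ^ K) := by rw [pow_succ]; ring
      _ = 4 * (K : ℝ) ^ (κ + 1) := by rw [← mul_pow]; norm_num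
      _ ≤ _ := by
        have := hp (show κ + 1 ≤ 2 * κ + 5 by omega)
        linarith
  have i8 : 0 ≤ (K : ℝ) ^ (2 * κ + 5) := by positivity
  linarith

theorem card_idx_le (K : ℕ) : (idx K).card ≤ 2 ^ K := by
  unfold idx
  rw [Finset.card_sigma]
  simp only [Finset.card_range]
  have : ∑ k ∈ Finset.range K, 2 ^ k < 2 ^ K := by
    have := Nat.geomSum_eq (le_refl 2) K
    rw [this]
    have h1 : 1 ≤ 2 ^ K := Nat.one_le_two_pow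
    simp
  exact this.le

/-- the starting window -/
theorem good_start {θ : ℝ} (hθ : 1 < θ) {c : ℕ → ℝ} {κ r n K : ℕ} {a ℓ : ℝ} (hw : Win θ n ℓ) (hℓ : 0 < ℓ) (hK : 2 ≤ K)
    (hC : θ / (θ - 1) ≤ K) (hn : n ≤ K) (hr : n ≤ r) (hr2 : r ≤ K ^ (κ + 1)) :
    NB θ c n r K a ℓ ∧ Pot θ c n r K (lamK κ K) a ℓ ≤ 16 ^ K := by
  have hK1 : 1 ≤ K := by omega
  have hKr : (1 : ℝ) ≤ K := by exact_mod_cast hK1
  have hlam := lamK_pos κ hK1
  refine ⟨fun j hj => by omega, ?_⟩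
  have hLr : (1 : ℝ) ≤ ((K ^ (κ + 1) : ℕ) : ℝ) := by exact_mod_cast Nat.one_le_pow _ _ hK1
  have hlamK : lamK κ K * (2 * K) ≤ 1 / 2 := by
    unfold lamK
    rw [div_mul_eq_mul_div, one_mul, div_le_iff₀ (by positivity)]
    have : (1 : ℝ) ≤ ((K ^ (κ + 1) : ℕ) : ℝ) ^ 2 := one_le_pow₀ hLr
    nlinarith
  have h1 : ∀ p ∈ idx K, Real.cosh (lamK κ K * M θ c p.1 p.2 a ℓ) * (1 + 4 * lamK κ K ^ 2 * W θ c n r p.1 p.2 a ℓ) ≤ 4 := by
    intro p _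
    have h2 := M_le (c := c) hθ p.1 p.2 (a := a) hw.1
    have h3 : |M θ c p.1 p.2 a ℓ| ≤ 2 * K := by
      have : (n : ℝ) ≤ K := by exact_mod_cast hn
      linarith
    have h4 : |lamK κ K * M θ c p.1 p.2 a ℓ| ≤ 1 / 2 := by
      rw [abs_mul, abs_of_pos hlam]
      exact (mul_le_mul_of_nonneg_left h3 hlam.le).trans hlamK
    have h5 : Real.cosh (lamK κ K * M θ c p.1 p.2 a ℓ) ≤ 2 := by
      rw [← Real.cosh_abs]
      have h6 := Real.cosh_le_exp_half_sq |lamK κ K * M θ c p.1 p.2 a ℓ|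
      have h7 : |lamK κ K * M θ c p.1 p.2 a ℓ| ^ 2 / 2 ≤ 1 / 2 := by
        have := abs_nonneg (lamK κ K * M θ c p.1 p.2 a ℓ)
        nlinarith
      have h8 : Real.exp (1 / 2) ≤ 2 := by
        have h9 : Real.exp (1 / 2) ^ 2 ≤ 2 ^ 2 := by
          rw [← Real.exp_nat_mul]
          norm_num
          have := Real.exp_one_lt_d9
          linarith
        exact le_of_sq_le_sq h9 (by norm_num)
      exact h6.trans ((Real.exp_le_exp.2 h7).trans h8)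
    have h10 := W_le (θ := θ) (c := c) n r p.1 p.2 (a := a) hℓ
    have h11 : 4 * lamK κ K ^ 2 * W θ c n r p.1 p.2 a ℓ ≤ 1 := by
      have h12 : (r : ℝ) ≤ ((K ^ (κ + 1) : ℕ) : ℝ) := by exact_mod_cast hr2
      have h13 : lamK κ K * r ≤ 1 / 4096 := by
        calc lamK κ K * r ≤ lamK κ K * ((K ^ (κ + 1) : ℕ) : ℝ) := mul_le_mul_of_nonneg_left h12 hlam.le
          _ ≤ 1 / 4096 := by
            unfold lamK
            rw [div_mul_eq_mul_div, one_mul, div_le_div_iff₀ (by positivity) (by norm_num)]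
            nlinarith [mul_nonneg (sub_nonneg.2 hKr) (sq_nonneg ((K ^ (κ + 1) : ℕ) : ℝ)), mul_nonneg (sub_nonneg.2 hLr) (by linarith : (0:ℝ) ≤ ((K ^ (κ + 1) : ℕ) : ℝ))]
      have h14 : 0 ≤ lamK κ K * r := by positivity
      calc 4 * lamK κ K ^ 2 * W θ c n r p.1 p.2 a ℓ ≤ 4 * lamK κ K ^ 2 * (r : ℝ) ^ 2 :=
            mul_le_mul_of_nonneg_left h10 (by positivity)
        _ = 4 * (lamK κ K * r) ^ 2 := by ring
        _ ≤ 1 := by nlinarith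
    have h15 : 0 ≤ 4 * lamK κ K ^ 2 * W θ c n r p.1 p.2 a ℓ := by
      have := W_nonneg (θ := θ) (c := c) n r p.1 p.2 (a := a) hℓ
      positivity
    have h16 := Real.one_le_cosh (lamK κ K * M θ c p.1 p.2 a ℓ)
    nlinarith
  calc Pot θ c n r K (lamK κ K) a ℓ ≤ ∑ _p ∈ idx K, (4 : ℝ) := Finset.sum_le_sum h1
    _ = (idx K).card * 4 := by rw [Finset.sum_const, nsmul_eq_mul]
    _ ≤ 2 ^ K * 4 := by
      have : ((idx K).card : ℝ) ≤ 2 ^ K := by exact_mod_cast card_idx_le K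
      linarith
    _ ≤ 2 ^ K * 8 ^ K := by
      have : (4 : ℝ) ≤ 8 ^ K := by
        calc (4 : ℝ) ≤ 8 ^ 1 := by norm_num
          _ ≤ 8 ^ K := pow_le_pow_right₀ (by norm_num) hK1
      exact mul_le_mul_of_nonneg_left this (by positivity)
    _ = 16 ^ K := by rw [← mul_pow]; norm_num

/-- one block -/
theorem good_step {θ : ℝ} (hθ : 1 < θ) {c : ℕ → ℝ} {κ R n₀ K₀ : ℕ} (hK₀2 : 2 ≤ K₀) (hn₀ : n₀ ≤ K₀)
    (hpar : ∀ K ≥ K₀, ∃ (Q₀ : ℕ) (ε : ℝ), ∀ n : ℕ, n ≤ 2 ^ (K + 1) * K ^ (κ + 1) → Par θ K n (K ^ (κ + 1)) (R * K) Q₀ ε)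
    (hbig : ∀ K ≥ K₀, 4096 * K * K ^ (κ + 1) ≤ 2 ^ K) {ℓ₀ : ℝ} (hw0 : Win θ (nk κ n₀ K₀ 0) ℓ₀) (k : ℕ) (a : ℝ)
    (hgood : Good θ c κ R n₀ K₀ (ell θ (nk κ n₀ K₀) ℓ₀) k a) :
    (1 / 2 : ℝ) ^ (3 * Kk K₀ k) * Bk θ (nk κ n₀ K₀) ℓ₀ k ≤
      (by classical exact (((Finset.range (Bk θ (nk κ n₀ K₀) ℓ₀ k)).filter fun b : ℕ =>
        Good θ c κ R n₀ K₀ (ell θ (nk κ n₀ K₀) ℓ₀) (k + 1) (a + b * ell θ (nk κ n₀ K₀) ℓ₀ (k + 1))).card : ℝ)) := by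
  classical
  set n := nk κ n₀ K₀ with hn
  set ℓ := ell θ n ℓ₀ with hℓ
  set K := Kk K₀ k with hK
  set B := Bk θ n ℓ₀ k with hBdef
  have hmono : Monotone n := nk_mono κ n₀ K₀
  have hKK₀ : K₀ ≤ K := Kk_ge K₀ k
  have hK1 : 1 ≤ K := by omega
  have hKr : (1 : ℝ) ≤ K := by exact_mod_cast hK1
  obtain ⟨hw, hpos⟩ := win_all hθ hmono hw0 k
  obtain ⟨hw', hpos'⟩ := win_all hθ hmono hw0 (k + 1)
  have hB1 : 1 ≤ B := (Bk_ge hθ hmono hw0 k).1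
  have hnn : n (k + 1) = n k + K ^ (κ + 1) := nk_succ κ n₀ K₀ k
  have hℓs : ℓ (k + 1) = ℓ k / B := ell_succ θ n ℓ₀ k
  have hnle : n k ≤ 2 ^ (K + 1) * K ^ (κ + 1) := nk_le (by omega) hn₀ k
  obtain ⟨Q₀, ε, hP⟩ := hpar K hKK₀
  have P := hP (n k) hnle
  have hKs := Kk_succ K₀ k
  rw [← hK] at hKs
  set K' := Kk K₀ (k + 1) with hK'
  have hK'le : K' ≤ K + 1 := by omega
  have hKK' : K ≤ K' := by omega
  have h1 := step (c := c) (r' := R * K') (K' := K') P (Nat.mul_le_mul_left R hKK') hK'le (hbig K hKK₀) (by omega) hw hB1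
    (by rw [← hnn, ← hℓs]; exact hw') hgood.1 hgood.2
  refine h1.trans ?_
  have h2 : ((Finset.range B).filter fun b : ℕ =>
      NB θ c (n k + K ^ (κ + 1)) (R * K') K' (a + b * (ℓ k / B)) (ℓ k / B) ∧
      Pot θ c (n k + K ^ (κ + 1)) (R * K) K (1 / (4096 * K * ((K ^ (κ + 1) : ℕ) : ℝ) ^ 2)) (a + b * (ℓ k / B)) (ℓ k / B) ≤ 16 ^ K) ⊆
      ((Finset.range B).filter fun b : ℕ => Good θ c κ R n₀ K₀ ℓ (k + 1) (a + b * ℓ (k + 1))) := by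
    intro b hb
    rw [Finset.mem_filter] at hb ⊢
    obtain ⟨hb1, hb2, hb3⟩ := hb
    refine ⟨hb1, ?_⟩
    rw [← hnn, ← hℓs] at hb2 hb3
    refine ⟨hb2, ?_⟩
    change Pot θ c (n (k + 1)) (R * K') K' (lamK κ K') (a + b * ℓ (k + 1)) (ℓ (k + 1)) ≤ 16 ^ K'
    change Pot θ c (n (k + 1)) (R * K) K (lamK κ K) (a + b * ℓ (k + 1)) (ℓ (k + 1)) ≤ 16 ^ K at hb3
    rcases hKs with h | h
    · rw [h]; exact hb3
    · rw [h]
      have hLr : (1 : ℝ) ≤ ((K ^ (κ + 1) : ℕ) : ℝ) := by exact_mod_cast Nat.one_le_pow _ _ hK1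
      have hKL : (K : ℝ) ≤ ((K ^ (κ + 1) : ℕ) : ℝ) := by exact_mod_cast Nat.le_self_pow (by omega) K
      refine trans hθ hK1 hw' (lamK_pos κ (by omega)).le (lamK_anti κ hK1 (by omega)) ?_ ?_ hb3
      · -- the transition constant
        have e1 : ((n (k + 1) : ℕ) : ℝ) * (1 / 2) ^ K ≤ 3 * ((K ^ (κ + 1) : ℕ) : ℝ) := by
          have e2 : ((n (k + 1) : ℕ) : ℝ) ≤ 2 ^ (K + 1) * ((K ^ (κ + 1) : ℕ) : ℝ) + ((K ^ (κ + 1) : ℕ) : ℝ) := by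
            rw [hnn]
            have : ((n k : ℕ) : ℝ) ≤ 2 ^ (K + 1) * ((K ^ (κ + 1) : ℕ) : ℝ) := by exact_mod_cast hnle
            push_cast at this ⊢
            linarith
          have e3 : (1 / 2 : ℝ) ^ K ≤ 1 := pow_le_one₀ (by norm_num) (by norm_num)
          calc ((n (k + 1) : ℕ) : ℝ) * (1 / 2) ^ K
              ≤ (2 ^ (K + 1) * ((K ^ (κ + 1) : ℕ) : ℝ) + ((K ^ (κ + 1) : ℕ) : ℝ)) * (1 / 2) ^ K :=
                mul_le_mul_of_nonneg_right e2 (by positivity)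
            _ = 2 * ((K ^ (κ + 1) : ℕ) : ℝ) * (2 ^ K * (1 / 2) ^ K) + ((K ^ (κ + 1) : ℕ) : ℝ) * (1 / 2) ^ K := by
                rw [pow_succ]; ring
            _ ≤ 2 * ((K ^ (κ + 1) : ℕ) : ℝ) * 1 + ((K ^ (κ + 1) : ℕ) : ℝ) * 1 := by
                have e4 : (2 : ℝ) ^ K * (1 / 2) ^ K = 1 := by rw [← mul_pow]; norm_num
                rw [e4]
                have := mul_le_mul_of_nonneg_left e3 (show 0 ≤ ((K ^ (κ + 1) : ℕ) : ℝ) by positivity)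
                linarith
            _ = _ := by ring
        have e5 : ((n (k + 1) : ℕ) : ℝ) * (1 / 2) ^ K + 2 * (θ / (θ - 1)) ≤ 5 * ((K ^ (κ + 1) : ℕ) : ℝ) := by
          have := P.hC
          linarith
        refine (mul_le_mul_of_nonneg_left e5 (lamK_pos κ hK1).le).trans ?_
        unfold lamK
        rw [div_mul_eq_mul_div, one_mul, div_le_iff₀ (by positivity)]
        nlinarith [mul_nonneg (sub_nonneg.2 hKr) (sq_nonneg ((K ^ (κ + 1) : ℕ) : ℝ)), mul_nonneg (sub_nonneg.2 hLr) (by linarith : (0:ℝ) ≤ ((K ^ (κ + 1) : ℕ) : ℝ))]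
      · -- the new pending variances
        have e1 : R * (K + 1) ≤ (K + 1) ^ (κ + 1) := by
          obtain ⟨Q₀', ε', hP'⟩ := hpar (K + 1) (by omega)
          have := (hP' 0 (Nat.zero_le _)).hL
          omega
        have e2 : (((R * (K + 1) : ℕ)) : ℝ) ≤ (((K + 1) ^ (κ + 1) : ℕ) : ℝ) := by exact_mod_cast e1
        have hK1' : (1 : ℝ) ≤ ((K + 1 : ℕ) : ℝ) := by exact_mod_cast (by omega : 1 ≤ K + 1)
        have hLr' : (1 : ℝ) ≤ (((K + 1) ^ (κ + 1) : ℕ) : ℝ) := by exact_mod_cast Nat.one_le_pow _ _ (by omega)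
        have e3 : lamK κ (K + 1) * (((R * (K + 1) : ℕ)) : ℝ) ≤ 1 / 4096 := by
          calc lamK κ (K + 1) * (((R * (K + 1) : ℕ)) : ℝ) ≤ lamK κ (K + 1) * (((K + 1) ^ (κ + 1) : ℕ) : ℝ) :=
                mul_le_mul_of_nonneg_left e2 (lamK_pos κ (by omega)).le
            _ ≤ 1 / 4096 := by
              unfold lamK
              rw [div_mul_eq_mul_div, one_mul, div_le_div_iff₀ (by positivity) (by norm_num)]
              nlinarith [mul_nonneg (sub_nonneg.2 hK1') (sq_nonneg (((K + 1) ^ (κ + 1) : ℕ) : ℝ)),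
                mul_nonneg (sub_nonneg.2 hLr') (by linarith : (0:ℝ) ≤ (((K + 1) ^ (κ + 1) : ℕ) : ℝ))]
        have e4 : 0 ≤ lamK κ (K + 1) * (((R * (K + 1) : ℕ)) : ℝ) := by
          have := lamK_pos κ (show 1 ≤ K + 1 by omega)
          positivity
        have e5 : 4 * lamK κ (K + 1) ^ 2 * (((R * (K + 1) : ℕ)) : ℝ) ^ 2 = 4 * (lamK κ (K + 1) * (((R * (K + 1) : ℕ)) : ℝ)) ^ 2 := by ring
        rw [e5]
        nlinarith
  have h3 := Finset.card_le_card h2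
  convert (Nat.cast_le (α := ℝ)).2 h3 using 2

/-- boundedness for the dimension -/
theorem bounded_ratio {a : ℕ → ℝ} (h0 : ∀ k, 0 ≤ a k) {k₀ : ℕ} (h : ∀ k ≥ k₀, a (k + 1) ≤ a k) : ∃ C : ℝ, ∀ k, a k ≤ C := by
  refine ⟨∑ j ∈ Finset.range (k₀ + 1), a j, fun k => ?_⟩
  have h1 : ∀ j, j ≤ k₀ → a j ≤ ∑ i ∈ Finset.range (k₀ + 1), a i := fun j hj =>
    Finset.single_le_sum (f := a) (fun i _ => h0 i) (Finset.mem_range.2 (by omega))
  rcases le_total k k₀ with hk | hk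
  · exact h1 k hk
  · obtain ⟨m, rfl⟩ := Nat.exists_eq_add_of_le hk
    refine le_trans ?_ (h1 k₀ le_rfl)
    induction m with
    | zero => exact le_rfl
    | succ m ih => exact (h (k₀ + m) (by omega)).trans (ih (by omega))

/-- **nearly optimal discrepancy on a set of full dimension** -/
theorem main_ge {θ : ℝ} {κ : ℕ} (hθ : 1 < θ) (hκ : 1 ≤ κ) (h : Dioph θ κ) (c : ℕ → ℝ) {O : Set ℝ} (hO : IsOpen O) (hne : O.Nonempty)
    {s : ℝ} (hs : 0 < s) (hs1 : s < 1) :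
    ENNReal.ofReal s ≤ dimH {ξ | ξ ∈ O ∧ ∃ N₀ : ℕ, ∀ N ≥ N₀, DiscLe (fun j => ξ * θ ^ j + c j) N (Real.log N ^ (2 * κ + 6))} := by
  classical
  have hθ0 : 0 < θ := by linarith
  -- the starting window
  obtain ⟨x₀, hx₀⟩ := hne
  obtain ⟨ρ, hρ, hball⟩ := Metric.isOpen_iff.1 hO x₀ hx₀
  obtain ⟨n₀, hn₀⟩ := exists_pow_lt_of_lt_one (show (0 : ℝ) < ρ by exact hρ) (inv_lt_one_of_one_lt₀ hθ)
  set ℓ₀ : ℝ := θ⁻¹ ^ n₀ with hℓ₀
  have hℓ₀pos : 0 < ℓ₀ := by positivity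
  have hwin0 : Win θ n₀ ℓ₀ := by
    have : θ ^ n₀ * ℓ₀ = 1 := by rw [hℓ₀, inv_pow]; exact mul_inv_cancel₀ (by positivity)
    exact ⟨this.ge, by rw [this]; norm_num⟩
  have hsub : Icc x₀ (x₀ + ℓ₀) ⊆ O := by
    intro x hx
    refine hball ?_
    rw [Metric.mem_ball, Real.dist_eq, abs_of_nonneg (by linarith [hx.1])]
    linarith [hx.2]
  -- parameters
  obtain ⟨R, hR⟩ := pow_unbounded_of_one_lt ((2 : ℝ) ^ 12) hθ
  have hR1 : 1 ≤ R := by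
    rcases Nat.eq_zero_or_pos R with h0 | h0
    · rw [h0, pow_zero] at hR; norm_num at hR
    · exact h0
  obtain ⟨C, hC, hKR⟩ := equi_of_dioph hθ hκ h R
  have hev := (ev_par hθ hκ hR1 hR.le hC).and ((ev_big κ).and ((ev_real (θ / (θ - 1))).and ((eventually_ge_atTop n₀).and
    ((eventually_ge_atTop (3 * R)).and (eventually_ge_atTop 2)))))
  obtain ⟨K₀, hK₀⟩ := eventually_atTop.1 hev
  obtain ⟨-, -, hC₀, hn₀K, hR3, hK₀2⟩ := hK₀ K₀ le_rfl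
  have hpar : ∀ K ≥ K₀, ∃ (Q₀ : ℕ) (ε : ℝ), ∀ n : ℕ, n ≤ 2 ^ (K + 1) * K ^ (κ + 1) → Par θ K n (K ^ (κ + 1)) (R * K) Q₀ ε := by
    intro K hK
    obtain ⟨Q₀, ε, e1, e2, e3, e4⟩ := hKR K (by omega)
    exact ⟨Q₀, ε, (hK₀ K hK).1 Q₀ ε e1 e2 e3 e4⟩
  have hbig : ∀ K ≥ K₀, 4096 * K * K ^ (κ + 1) ≤ 2 ^ K := fun K hK => (hK₀ K hK).2.1.1
  set n := nk κ n₀ K₀ with hn
  have hn0 : n 0 = n₀ := by rw [hn]; unfold nk; simp
  have hmono : Monotone n := nk_mono κ n₀ K₀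
  have hnt : Tendsto n atTop atTop := tendsto_atTop_mono (nk_ge κ n₀ (by omega)) tendsto_id
  have hw0 : Win θ (n 0) ℓ₀ := by rw [hn0]; exact hwin0
  set ℓ := ell θ n ℓ₀ with hℓ
  have hRK : ∀ K ≥ K₀, R * K ≤ K ^ (κ + 1) := by
    intro K hK
    obtain ⟨Q₀, ε, hP⟩ := hpar K hK
    have := (hP 0 (Nat.zero_le _)).hL
    omega
  have hstart : Good θ c κ R n₀ K₀ ℓ 0 x₀ := by
    have e1 : Kk K₀ 0 = K₀ := by unfold Kk; simp
    unfold Good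
    rw [e1, ← hn, hn0]
    refine good_start hθ hwin0 hℓ₀pos hK₀2 hC₀ hn₀K ?_ (hRK K₀ le_rfl)
    calc n₀ ≤ K₀ := hn₀K
      _ ≤ R * K₀ := Nat.le_mul_of_pos_left _ hR1
  -- dimension
  have hdim := dim_homog (Bk θ n ℓ₀) ℓ (fun k => (1 / 2 : ℝ) ^ (3 * Kk K₀ k)) (Good θ c κ R n₀ K₀ ℓ) x₀
    (fun k => (Bk_ge hθ hmono hw0 k).1) hℓ₀pos (fun k => rfl) (ell_tendsto hθ hmono hnt hw0) (fun k => by positivity)
    (fun k => pow_le_one₀ (by norm_num) (by norm_num)) hstart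
    (fun k a hg => by
      have := good_step hθ hK₀2 hn₀K hpar hbig hw0 k a hg
      convert this using 3) hs hs1 ?_
  · refine hdim.trans (dimH_mono ?_)
    rintro x ⟨hx0, hx⟩
    refine ⟨hsub hx0, final_disc (κ := κ) (n₀ := n₀) (K₀ := K₀) (D₀ := 70000) (by omega) (by norm_num) fun k => ?_⟩
    obtain ⟨a, hg, hxa⟩ := hx k
    obtain ⟨hw, hpos⟩ := win_all hθ hmono hw0 k
    have hKK₀ : K₀ ≤ Kk K₀ k := Kk_ge K₀ k
    exact good_disc hθ hw hpos (by omega) ((hK₀ _ hKK₀).2.2.1) (hRK _ hKK₀) (nk_le (by omega) hn₀K k) hg.1 hg.2 hxa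
  · -- the masses
    have hlog : Tendsto (Kk K₀) atTop atTop := Kk_tendsto K₀
    obtain ⟨k₀, hk₀⟩ := eventually_atTop.1 (hlog.eventually (ev_ratio hθ hκ hs hs1))
    refine bounded_ratio (k₀ := k₀) (fun k => ?_) fun k hk => ?_
    · have := (win_all hθ hmono hw0 k).2
      exact mul_nonneg (Finset.prod_nonneg fun j _ => by positivity) (Real.rpow_nonneg this.le _)
    · obtain ⟨hw, hpos⟩ := win_all hθ hmono hw0 k
      obtain ⟨hB1, hB2⟩ := Bk_ge hθ hmono hw0 k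
      have e1 : n (k + 1) - n k = Kk K₀ k ^ (κ + 1) := by
        rw [hn, nk_succ]; omega
      rw [e1] at hB2
      have hBpos : (0 : ℝ) < Bk θ n ℓ₀ k := by exact_mod_cast hB1
      have e2 : ℓ (k + 1) = ℓ k / Bk θ n ℓ₀ k := rfl
      rw [Finset.prod_range_succ _ (k + 1), e2, Real.div_rpow hpos.le hBpos.le]
      have e3 : ((1 / 2 : ℝ) ^ (3 * Kk K₀ (k + 1)))⁻¹ ≤ (Bk θ n ℓ₀ k : ℝ) ^ (1 - s) := by
        have e4 : ((1 / 2 : ℝ) ^ (3 * Kk K₀ (k + 1)))⁻¹ = 2 ^ (3 * Kk K₀ (k + 1)) := by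
          rw [← inv_pow]; norm_num
        rw [e4]
        calc (2 : ℝ) ^ (3 * Kk K₀ (k + 1)) ≤ 2 ^ (3 * (Kk K₀ k + 1)) := by
              refine pow_le_pow_right₀ (by norm_num) ?_
              have := Kk_succ K₀ k
              omega
          _ ≤ (θ ^ (Kk K₀ k ^ (κ + 1)) / 2) ^ (1 - s) := hk₀ k hk
          _ ≤ _ := Real.rpow_le_rpow (by positivity) hB2 (by linarith)
      have hP0 : 0 ≤ ∏ j ∈ Finset.range (k + 1), ((1 / 2 : ℝ) ^ (3 * Kk K₀ j))⁻¹ := Finset.prod_nonneg fun j _ => by positivity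
      have hBs : 0 < (Bk θ n ℓ₀ k : ℝ) ^ (1 - s) := Real.rpow_pos_of_pos hBpos _
      have hℓs : 0 ≤ ℓ k ^ (1 - s) := Real.rpow_nonneg hpos.le _
      rw [mul_div_assoc', div_le_iff₀ hBs]
      calc (∏ j ∈ Finset.range (k + 1), ((1 / 2 : ℝ) ^ (3 * Kk K₀ j))⁻¹) * ((1 / 2 : ℝ) ^ (3 * Kk K₀ (k + 1)))⁻¹ * ℓ k ^ (1 - s)
          ≤ (∏ j ∈ Finset.range (k + 1), ((1 / 2 : ℝ) ^ (3 * Kk K₀ j))⁻¹) * (Bk θ n ℓ₀ k : ℝ) ^ (1 - s) * ℓ k ^ (1 - s) := by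
            gcongr
        _ = _ := by ring

theorem dimH_le_one (s : Set ℝ) : dimH s ≤ 1 := by
  rw [← Real.dimH_univ]
  exact dimH_mono (subset_univ s)

/-- **nearly optimal discrepancy on a set of full dimension** -/
theorem main' {θ : ℝ} {κ : ℕ} (hθ : 1 < θ) (hκ : 1 ≤ κ) (h : Dioph θ κ) (c : ℕ → ℝ) {O : Set ℝ} (hO : IsOpen O) (hne : O.Nonempty) :
    dimH {ξ | ξ ∈ O ∧ ∃ N₀ : ℕ, ∀ N ≥ N₀, DiscLe (fun j => ξ * θ ^ j + c j) N (Real.log N ^ (2 * κ + 6))} = 1 := by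
  refine le_antisymm (dimH_le_one _) ?_
  have h1 : Tendsto (fun m : ℕ => ENNReal.ofReal (1 - 1 / ((m : ℝ) + 2))) atTop (𝓝 1) := by
    have h2 : Tendsto (fun m : ℕ => 1 - 1 / ((m : ℝ) + 2)) atTop (𝓝 (1 - 0)) := by
      refine Tendsto.sub tendsto_const_nhds ?_
      have h3 : Tendsto (fun m : ℕ => (m : ℝ) + 2) atTop atTop :=
        tendsto_natCast_atTop_atTop.atTop_add tendsto_const_nhds
      have h5 := tendsto_inv_atTop_zero.comp h3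
      refine h5.congr fun m => ?_
      rw [Function.comp_apply, one_div]
    rw [sub_zero] at h2
    have h4 := (ENNReal.continuous_ofReal.tendsto 1).comp h2
    rwa [ENNReal.ofReal_one] at h4
  refine le_of_tendsto h1 (Eventually.of_forall fun m => ?_)
  refine main_ge hθ hκ h c hO hne ?_ ?_
  · have : (1 : ℝ) / ((m : ℝ) + 2) < 1 := by
      rw [div_lt_one (by positivity)]
      have : (0 : ℝ) ≤ m := Nat.cast_nonneg m
      linarith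
    linarith
  · have : (0 : ℝ) < 1 / ((m : ℝ) + 2) := by positivity
    linarith

end Pool.Agent.Helper41.LD
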