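import Pool.Agent.Helper41.LD.Seq

/-!
# Project LD: growth of the parameters
-/

set_option autoImplicit false

namespace Pool.Agent.Helper41.LD

open Set Filter Topology

/-- exponentials dominate powers -/
theorem ev_pow (a : ℕ) (D : ℝ) : ∀ᶠ K : ℕ in atTop, D * (K : ℝ) ^ a ≤ 2 ^ K := by
  have h1 := tendsto_pow_const_div_const_pow_of_one_lt a (show (1 : ℝ) < 2 by norm_num)
  have h2 := h1.const_mul (|D| + 1)
  rw [mul_zero] at h2
  filter_upwards [h2.eventually (gt_mem_nhds (show (0 : ℝ) < 1 by norm_num))] with K hK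
  have h3 : (0 : ℝ) < 2 ^ K := by positivity
  rw [← mul_div_assoc, div_lt_one h3] at hK
  have h4 : D * (K : ℝ) ^ a ≤ (|D| + 1) * (K : ℝ) ^ a :=
    mul_le_mul_of_nonneg_right ((le_abs_self D).trans (by linarith)) (by positivity)
  linarith

theorem ev_real (D : ℝ) : ∀ᶠ K : ℕ in atTop, D ≤ (K : ℝ) := by
  filter_upwards [eventually_ge_atTop ⌈D⌉₊] with K hK
  exact (Nat.le_ceil D).trans (by exact_mod_cast hK)

theorem pow_eq_exp {θ : ℝ} (hθ0 : 0 < θ) (m : ℕ) : θ ^ m = Real.exp (m * Real.log θ) := by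
  rw [mul_comm, Real.exp_mul, Real.exp_log hθ0, Real.rpow_natCast]

/-- the parameters are admissible for large `K` -/
theorem ev_par {θ : ℝ} (hθ : 1 < θ) {κ R : ℕ} (hκ : 1 ≤ κ) (hR1 : 1 ≤ R) (hR : (2 : ℝ) ^ 12 ≤ θ ^ R) {C : ℝ} (hC : 0 < C) :
    ∀ᶠ K : ℕ in atTop, ∀ (Q₀ : ℕ) (ε : ℝ), (Q₀ : ℝ) + 1 ≤ Real.exp (C * (K : ℝ) ^ κ) → 0 ≤ ε → ε ≤ (1 / 2) ^ (12 * K) →
      Equi θ (R * K) Q₀ ε → ∀ n : ℕ, n ≤ 2 ^ (K + 1) * K ^ (κ + 1) → Par θ K n (K ^ (κ + 1)) (R * K) Q₀ ε := by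
  have hθ0 : 0 < θ := by linarith
  have hlog : 0 < Real.log θ := Real.log_pos hθ
  filter_upwards [eventually_ge_atTop 1, ev_real (θ / (θ - 1)), eventually_ge_atTop (3 * R), eventually_ge_atTop (4 * R),
    ev_real (2 * C / Real.log θ), ev_pow (κ + 1) 4, eventually_ge_atTop 2] with K h1 h2 h3 h4 h5 h6 h7
  intro Q₀ ε hQ hε0 hε hE n hn
  have hKr : (1 : ℝ) ≤ K := by exact_mod_cast h1
  have hK2 : K * K ≤ K ^ (κ + 1) := by
    calc K * K = K ^ 2 := (sq K).symm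
      _ ≤ K ^ (κ + 1) := Nat.pow_le_pow_right h1 (by omega)
  have h8 : 4 * K ^ (κ + 1) ≤ 2 ^ K := by exact_mod_cast h6
  refine ⟨hθ, h1, h2, ?_, ?_, ?_, ?_, ?_, hε0, hε, hE⟩
  · rw [pow_mul, pow_mul]
    exact pow_le_pow_left₀ (by positivity) hR K
  · exact Nat.mul_pos hR1 h1
  · calc 3 * (R * K) = (3 * R) * K := by ring
      _ ≤ K * K := Nat.mul_le_mul_right _ h3
      _ ≤ _ := hK2
  · have h9 : R * K ≤ K ^ (κ + 1) := (Nat.mul_le_mul_right K (by omega : R ≤ K)).trans hK2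
    have h10 : (2 : ℕ) ^ (2 * K) = 2 ^ K * 2 ^ K := by rw [two_mul, pow_add]
    have h11 : n ≤ 2 * 2 ^ K * K ^ (κ + 1) := by rw [pow_succ] at hn; linarith
    have h12 : 2 ^ 2 ≤ 2 ^ K := Nat.pow_le_pow_right (by norm_num) h7
    rw [h10]
    have h13 : 2 ^ K * (4 * K ^ (κ + 1)) ≤ 2 ^ K * 2 ^ K := Nat.mul_le_mul_left _ h8
    have h14 : 2 * K ^ (κ + 1) ≤ 2 * 2 ^ K * K ^ (κ + 1) := by
      refine Nat.mul_le_mul_right _ ?_
      omega
    nlinarith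
  · have h9 : (K : ℝ) ^ (κ + 1) / 2 ≤ ((K ^ (κ + 1) - 2 * (R * K) : ℕ) : ℝ) := by
      have h10 : 2 * (R * K) ≤ K ^ (κ + 1) := by
        calc 2 * (R * K) = (2 * R) * K := by ring
          _ ≤ K * K := Nat.mul_le_mul_right _ (by omega)
          _ ≤ _ := hK2
      rw [Nat.cast_sub h10]
      have h11 : 2 * (2 * (R * K)) ≤ K ^ (κ + 1) := by
        calc 2 * (2 * (R * K)) = (4 * R) * K := by ring
          _ ≤ K * K := Nat.mul_le_mul_right _ h4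
          _ ≤ _ := hK2
      have h12 : 2 * ((2 * (R * K) : ℕ) : ℝ) ≤ (K : ℝ) ^ (κ + 1) := by exact_mod_cast h11
      push_cast at h12 ⊢
      linarith
    rw [pow_eq_exp hθ0]
    refine hQ.trans (Real.exp_le_exp.2 ?_)
    rw [div_le_iff₀ hlog] at h5
    calc C * (K : ℝ) ^ κ ≤ (K * Real.log θ / 2) * (K : ℝ) ^ κ := mul_le_mul_of_nonneg_right (by linarith) (by positivity)
      _ = (K : ℝ) ^ (κ + 1) / 2 * Real.log θ := by ring
      _ ≤ _ := mul_le_mul_of_nonneg_right h9 hlog.le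

/-- other conditions -/
theorem ev_big (κ : ℕ) : ∀ᶠ K : ℕ in atTop, 4096 * K * K ^ (κ + 1) ≤ 2 ^ K ∧ 2 ≤ K := by
  filter_upwards [ev_pow (κ + 2) 4096, eventually_ge_atTop 2] with K h1 h2
  refine ⟨?_, h2⟩
  have e : (4096 * (K : ℝ) ^ (κ + 2)) = ((4096 * K * K ^ (κ + 1) : ℕ) : ℝ) := by push_cast; ring
  rw [e] at h1
  exact_mod_cast h1

/-- ratio for the dimension -/
theorem ev_ratio {θ : ℝ} (hθ : 1 < θ) {κ : ℕ} (hκ : 1 ≤ κ) {s : ℝ} (hs1 : 0 < s) (hs : s < 1) :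
    ∀ᶠ K : ℕ in atTop, (2 : ℝ) ^ (3 * (K + 1)) ≤ (θ ^ (K ^ (κ + 1)) / 2) ^ (1 - s) := by
  have hθ0 : 0 < θ := by linarith
  have hlog : 0 < Real.log θ := Real.log_pos hθ
  have hs' : 0 < 1 - s := by linarith
  filter_upwards [eventually_ge_atTop 1, ev_real ((3 * 2 + 1) / ((1 - s) * Real.log θ)), ev_real (((3 * 2 + 1) + 1) / ((1 - s) * Real.log θ))] with K h1 h2 h3
  have hKr : (1 : ℝ) ≤ K := by exact_mod_cast h1
  rw [div_le_iff₀ (by positivity)] at h3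
  have hlog2 : Real.log 2 ≤ 1 := by have := Real.log_two_lt_d9; linarith
  have hlog2' : 0 < Real.log 2 := Real.log_pos (by norm_num)
  have hK2 : (K : ℝ) * K ≤ ((K ^ (κ + 1) : ℕ) : ℝ) := by
    have : K * K ≤ K ^ (κ + 1) := by
      calc K * K = K ^ 2 := (sq K).symm
        _ ≤ K ^ (κ + 1) := Nat.pow_le_pow_right h1 (by omega)
    exact_mod_cast this
  have e1 : (2 : ℝ) ^ (3 * (K + 1)) = Real.exp (3 * (K + 1) * Real.log 2) := by
    rw [mul_comm _ (Real.log 2), Real.exp_mul, Real.exp_log (by norm_num), ← Real.rpow_natCast]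
    congr 1
    push_cast
    ring
  have e2 : θ ^ (K ^ (κ + 1)) / 2 = Real.exp (((K ^ (κ + 1) : ℕ) : ℝ) * Real.log θ - Real.log 2) := by
    rw [Real.exp_sub, Real.exp_log (by norm_num), ← pow_eq_exp hθ0]
  rw [e1, e2, ← Real.exp_mul, Real.exp_le_exp]
  have h4 : (K : ℝ) * K * Real.log θ ≤ ((K ^ (κ + 1) : ℕ) : ℝ) * Real.log θ := mul_le_mul_of_nonneg_right hK2 hlog.le
  have h5 : ((K : ℝ) * K * Real.log θ - Real.log 2) * (1 - s) ≤ (((K ^ (κ + 1) : ℕ) : ℝ) * Real.log θ - Real.log 2) * (1 - s) :=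
    mul_le_mul_of_nonneg_right (by linarith) hs'.le
  refine le_trans ?_ h5
  have h6 : (K : ℝ) * ((3 * 2 + 1) + 1) ≤ K * (K * ((1 - s) * Real.log θ)) := mul_le_mul_of_nonneg_left h3 (by linarith)
  have h7 : 3 * ((K : ℝ) + 1) * Real.log 2 ≤ 3 * (K + 1) * 1 := mul_le_mul_of_nonneg_left hlog2 (by positivity)
  have h8 : Real.log 2 * (1 - s) ≤ 1 * (1 - s) := mul_le_mul_of_nonneg_right hlog2 hs'.le
  nlinarith

end Pool.Agent.Helper41.LD
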