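import Pool.Agent.Helper41.LD.Defs

/-!
# Project LD: the sequences of the construction
-/

set_option autoImplicit false

namespace Pool.Agent.Helper41.LD

open Set Filter Topology

/-- level of the Haar functions at the `k`-th block -/
def Kk (K₀ k : ℕ) : ℕ := K₀ + Nat.log 2 (k + 1)

theorem Kk_mono (K₀ : ℕ) : Monotone (Kk K₀) := fun a b h => by
  unfold Kk
  have := Nat.log_mono_right (b := 2) (show a + 1 ≤ b + 1 by omega)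
  omega

theorem Kk_succ (K₀ k : ℕ) : Kk K₀ (k + 1) = Kk K₀ k ∨ Kk K₀ (k + 1) = Kk K₀ k + 1 := by
  have h1 : Kk K₀ k ≤ Kk K₀ (k + 1) := Kk_mono K₀ (Nat.le_succ k)
  have h2 : Kk K₀ (k + 1) ≤ Kk K₀ k + 1 := by
    unfold Kk
    have h3 : Nat.log 2 (k + 1 + 1) ≤ Nat.log 2 ((k + 1) * 2) := Nat.log_mono_right (by omega)
    rw [Nat.log_mul_base (by norm_num) (by omega)] at h3
    omega
  omega

theorem Kk_ge (K₀ k : ℕ) : K₀ ≤ Kk K₀ k := Nat.le_add_right _ _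

theorem k_lt (K₀ k : ℕ) : k + 1 < 2 ^ (Kk K₀ k - K₀ + 1) := by
  unfold Kk
  rw [Nat.add_sub_cancel_left]
  exact Nat.lt_pow_succ_log_self (by norm_num) _

theorem Kk_log (K₀ k : ℕ) : 2 ^ (Kk K₀ k - K₀) ≤ k + 1 := by
  unfold Kk
  rw [Nat.add_sub_cancel_left]
  exact Nat.pow_log_le_self 2 (by omega)

theorem Kk_tendsto (K₀ : ℕ) : Tendsto (Kk K₀) atTop atTop := by
  refine tendsto_atTop_atTop_of_monotone (Kk_mono K₀) fun b => ⟨2 ^ b, ?_⟩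
  unfold Kk
  have h1 : b ≤ Nat.log 2 (2 ^ b + 1) := by
    have : Nat.log 2 (2 ^ b) ≤ Nat.log 2 (2 ^ b + 1) := Nat.log_mono_right (by omega)
    rwa [Nat.log_pow (by norm_num)] at this
  omega

/-- times of the blocks -/
def nk (κ n₀ K₀ k : ℕ) : ℕ := n₀ + ∑ j ∈ Finset.range k, Kk K₀ j ^ (κ + 1)

theorem nk_succ (κ n₀ K₀ k : ℕ) : nk κ n₀ K₀ (k + 1) = nk κ n₀ K₀ k + Kk K₀ k ^ (κ + 1) := by
  unfold nk
  rw [Finset.sum_range_succ]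
  omega

theorem nk_mono (κ n₀ K₀ : ℕ) : Monotone (nk κ n₀ K₀) :=
  monotone_nat_of_le_succ fun k => by rw [nk_succ]; omega

theorem nk_ge {K₀ : ℕ} (κ n₀ : ℕ) (hK₀ : 1 ≤ K₀) (k : ℕ) : k ≤ nk κ n₀ K₀ k := by
  induction k with
  | zero => omega
  | succ k ih =>
    rw [nk_succ]
    have h1 : 1 ≤ Kk K₀ k ^ (κ + 1) := Nat.one_le_pow _ _ (hK₀.trans (Kk_ge K₀ k))
    omega

theorem nk_le {κ n₀ K₀ : ℕ} (hK₀ : 1 ≤ K₀) (hn : n₀ ≤ K₀) (k : ℕ) :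
    nk κ n₀ K₀ k ≤ 2 ^ (Kk K₀ k + 1) * Kk K₀ k ^ (κ + 1) := by
  have h1 : ∑ j ∈ Finset.range k, Kk K₀ j ^ (κ + 1) ≤ k * Kk K₀ k ^ (κ + 1) := by
    calc ∑ j ∈ Finset.range k, Kk K₀ j ^ (κ + 1) ≤ ∑ _j ∈ Finset.range k, Kk K₀ k ^ (κ + 1) :=
          Finset.sum_le_sum fun j hj => Nat.pow_le_pow_left (Kk_mono K₀ (Finset.mem_range.1 hj).le) _
      _ = _ := by simp
  have h2 : k + 1 ≤ 2 ^ Kk K₀ k := by
    refine (k_lt K₀ k).le.trans (Nat.pow_le_pow_right (by norm_num) ?_)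
    have := Kk_ge K₀ k
    omega
  have h3 : n₀ ≤ Kk K₀ k ^ (κ + 1) := by
    calc n₀ ≤ Kk K₀ k := hn.trans (Kk_ge K₀ k)
      _ ≤ Kk K₀ k ^ (κ + 1) := Nat.le_self_pow (by omega) _
  have h4 : nk κ n₀ K₀ k ≤ (k + 1) * Kk K₀ k ^ (κ + 1) := by
    unfold nk
    rw [add_mul, one_mul]
    omega
  calc nk κ n₀ K₀ k ≤ (k + 1) * Kk K₀ k ^ (κ + 1) := h4
    _ ≤ 2 ^ (Kk K₀ k + 1) * Kk K₀ k ^ (κ + 1) := by
      refine Nat.mul_le_mul_right _ (h2.trans (Nat.pow_le_pow_right (by norm_num) (by omega)))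

/-- lengths of the windows -/
noncomputable def ell (θ : ℝ) (n : ℕ → ℕ) (ℓ₀ : ℝ) : ℕ → ℝ
  | 0 => ℓ₀
  | k + 1 => ell θ n ℓ₀ k / (⌊θ ^ n (k + 1) * ell θ n ℓ₀ k⌋₊ : ℝ)

/-- number of children -/
noncomputable def Bk (θ : ℝ) (n : ℕ → ℕ) (ℓ₀ : ℝ) (k : ℕ) : ℕ := ⌊θ ^ n (k + 1) * ell θ n ℓ₀ k⌋₊

theorem ell_succ (θ : ℝ) (n : ℕ → ℕ) (ℓ₀ : ℝ) (k : ℕ) : ell θ n ℓ₀ (k + 1) = ell θ n ℓ₀ k / Bk θ n ℓ₀ k := rfl

theorem floor_half {y : ℝ} (hy : 1 ≤ y) : y / 2 ≤ (⌊y⌋₊ : ℝ) ∧ (⌊y⌋₊ : ℝ) ≤ y ∧ 1 ≤ ⌊y⌋₊ := by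
  have h1 : 1 ≤ ⌊y⌋₊ := Nat.one_le_floor_iff _ |>.2 hy
  have h2 : y < ⌊y⌋₊ + 1 := Nat.lt_floor_add_one y
  have h3 : (1 : ℝ) ≤ (⌊y⌋₊ : ℝ) := by exact_mod_cast h1
  exact ⟨by linarith, Nat.floor_le (by linarith), h1⟩

theorem win_all {θ : ℝ} (hθ : 1 < θ) {n : ℕ → ℕ} (hn : Monotone n) {ℓ₀ : ℝ} (h0 : Win θ (n 0) ℓ₀) :
    ∀ k, Win θ (n k) (ell θ n ℓ₀ k) ∧ 0 < ell θ n ℓ₀ k := by
  have hθ0 : 0 < θ := by linarith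
  intro k
  induction k with
  | zero =>
    refine ⟨h0, ?_⟩
    by_contra hcon
    have h1 : θ ^ n 0 * ℓ₀ ≤ 0 := mul_nonpos_of_nonneg_of_nonpos (by positivity) (not_lt.1 hcon)
    have := h0.1
    linarith
  | succ k ih =>
    obtain ⟨hw, hpos⟩ := ih
    set y := θ ^ n (k + 1) * ell θ n ℓ₀ k with hy
    have hy1 : 1 ≤ y := by
      refine hw.1.trans ?_
      rw [hy]
      exact mul_le_mul_of_nonneg_right (pow_le_pow_right₀ hθ.le (hn (Nat.le_succ k))) hpos.le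
    obtain ⟨f1, f2, f3⟩ := floor_half hy1
    have hf : (0 : ℝ) < ⌊y⌋₊ := by exact_mod_cast f3
    have e : θ ^ n (k + 1) * ell θ n ℓ₀ (k + 1) = y / ⌊y⌋₊ := by
      rw [ell, ← hy, hy, mul_div_assoc]
    refine ⟨⟨?_, ?_⟩, ?_⟩
    · rw [e, le_div_iff₀ hf]; linarith
    · rw [e, div_le_iff₀ hf]; linarith
    · rw [ell, ← hy]
      positivity

theorem Bk_ge {θ : ℝ} (hθ : 1 < θ) {n : ℕ → ℕ} (hn : Monotone n) {ℓ₀ : ℝ} (h0 : Win θ (n 0) ℓ₀) (k : ℕ) :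
    1 ≤ Bk θ n ℓ₀ k ∧ θ ^ (n (k + 1) - n k) / 2 ≤ (Bk θ n ℓ₀ k : ℝ) := by
  obtain ⟨hw, hpos⟩ := win_all hθ hn h0 k
  have hθ0 : 0 < θ := by linarith
  have e : θ ^ n (k + 1) * ell θ n ℓ₀ k = θ ^ (n (k + 1) - n k) * (θ ^ n k * ell θ n ℓ₀ k) := by
    rw [← mul_assoc, ← pow_add, Nat.sub_add_cancel (hn (Nat.le_succ k))]
  have hp1 : (1 : ℝ) ≤ θ ^ (n (k + 1) - n k) := one_le_pow₀ hθ.le
  have hy : θ ^ (n (k + 1) - n k) ≤ θ ^ n (k + 1) * ell θ n ℓ₀ k := by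
    rw [e]
    exact le_mul_of_one_le_right (by positivity) hw.1
  obtain ⟨f1, f2, f3⟩ := floor_half (hp1.trans hy)
  refine ⟨f3, ?_⟩
  unfold Bk
  linarith

theorem ell_tendsto {θ : ℝ} (hθ : 1 < θ) {n : ℕ → ℕ} (hn : Monotone n) (hnt : Tendsto n atTop atTop) {ℓ₀ : ℝ} (h0 : Win θ (n 0) ℓ₀) :
    Tendsto (ell θ n ℓ₀) atTop (𝓝 0) := by
  have hθ0 : 0 < θ := by linarith
  have h1 : Tendsto (fun k => 2 * (θ⁻¹) ^ n k) atTop (𝓝 (2 * 0)) :=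
    ((tendsto_pow_atTop_nhds_zero_of_lt_one (by positivity) (inv_lt_one_of_one_lt₀ hθ)).comp hnt).const_mul 2
  rw [mul_zero] at h1
  refine squeeze_zero (fun k => (win_all hθ hn h0 k).2.le) (fun k => ?_) h1
  obtain ⟨hw, hpos⟩ := win_all hθ hn h0 k
  rw [inv_pow, ← div_eq_mul_inv, le_div_iff₀ (by positivity), mul_comm]
  exact hw.2

end Pool.Agent.Helper41.LD
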